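import Pool.Agent.H19.KN.Targets

set_option autoImplicit false

/-!
# KEW, board kna_modules: the norm of a small symbol of polynomials (row NSYM)
-/

namespace Pool.Agent.H64.KN

open Pool.Agent.H62.MK Pool.Agent.H19.KN Polynomial Function

universe u

theorem nsym_one {F : Type u} [Field F] {m : ℕ} (c : Fin m → Fˣ) (i : Fin m) (h : c i = 1) :
    sym c = 0 := by
  have h1 := sym_update_mul c i 1 1
  rw [mul_one] at h1
  have h2 : update c i 1 = c := by
    rw [← h, update_eq_self]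
  rw [h2] at h1
  exact left_eq_add.1 h1

theorem nsym_dvd_lm {K : Type u} [Field K] (v : MI K) {h : K[X]} (hh : h ≠ 0) (hv : v.1 ∣ lm h) :
    v.1 ∣ X := by
  unfold lm at hv
  have hp : Prime v.1 := v.2.2.prime
  rcases hp.dvd_or_dvd hv with h1 | h1
  · exfalso
    have h2 : IsUnit (C h.leadingCoeff) := by
      rw [isUnit_C]
      exact (leadingCoeff_ne_zero.2 hh).isUnit
    exact v.2.2.not_isUnit (isUnit_of_dvd_unit h1 h2)
  · exact hp.dvd_of_dvd_pow h1

theorem nsym_lm_ne {K : Type u} [Field K] {h : K[X]} (hh : h ≠ 0) : lm h ≠ 0 := by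
  unfold lm
  exact mul_ne_zero (C_ne_zero.2 (leadingCoeff_ne_zero.2 hh)) (pow_ne_zero _ X_ne_zero)

theorem nsym_eq_of_dvd {K : Type u} [Field K] (v P : MI K) (h : v.1 ∣ P.1) : v = P := by
  have h1 : Associated v.1 P.1 := v.2.2.associated_of_dvd P.2.2 h
  exact Subtype.ext (eq_of_monic_of_associated v.2.1 P.2.1 h1)

theorem nsym_ratio (hFPO : T_FPO.{u}) {K : Type u} [Field K] (v : MI K) {h h' : K[X]} (h0 : h ≠ 0)
    (h0' : h' ≠ 0) (hv : ¬ v.1 ∣ h) (hv' : ¬ v.1 ∣ h') :
    (finPlace v.1).ord (pu h / pu h') = 0 ∧ ∀ u : (AdjoinRoot v.1)ˣ,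
      (u : AdjoinRoot v.1) * AdjoinRoot.mk v.1 h' = AdjoinRoot.mk v.1 h →
      (finPlace v.1).ures (pu h / pu h') = u := by
  obtain ⟨-, e1, -⟩ := hFPO K v h h0
  obtain ⟨-, e2, -⟩ := hFPO K v h' h0'
  obtain ⟨o1, r1⟩ := e1 hv
  obtain ⟨o2, r2⟩ := e2 hv'
  constructor
  · rw [div_eq_mul_inv, DV.ord_mul, DV.ord_inv, o1, o2]
    rfl
  · intro u hu
    have h1 := (finPlace v.1).ures_mul (pu h / pu h') (pu h')
    rw [div_mul_cancel] at h1
    have h2 : (finPlace v.1).ures (pu h) = u * (finPlace v.1).ures (pu h') := by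
      apply Units.ext
      rw [Units.val_mul, r1, r2, hu]
    rw [h2] at h1
    exact (mul_right_cancel h1).symm

theorem nsym_deg {K : Type u} [Field K] {π : K} {M k D : ℕ} {g : K[X]} (hg : g.natDegree < D) :
    (QQ π M k g).natDegree < D := by
  have h1 : (g.comp (C (π ^ k) * X)).natDegree ≤ g.natDegree := by
    refine natDegree_comp_le.trans ?_
    calc g.natDegree * (C (π ^ k) * X).natDegree ≤ g.natDegree * 1 :=
          Nat.mul_le_mul_left _ ((natDegree_C_mul_le _ _).trans natDegree_X_le)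
      _ = g.natDegree := mul_one _
  unfold QQ
  have h2 : (1 + C (π ^ M) * g.comp (C (π ^ k) * X)).natDegree ≤ g.natDegree := by
    refine (natDegree_add_le _ _).trans (max_le ?_ ?_)
    · rw [natDegree_one]
      exact Nat.zero_le _
    · exact (natDegree_C_mul_le _ _).trans h1
  exact lt_of_le_of_lt h2 hg

theorem pf_NSYM (hREC : T_RECIP.{u}) (hTELE : T_TELE.{u}) (hTSL : T_TSL.{u}) (hTZP : T_TZP.{u})
    (hFPO : T_FPO.{u}) (hINF : T_INF.{u}) (hRINT : T_RINT.{u}) (hSMQ : T_SMQ.{u})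
    (hSMX : T_SMX.{u}) : T_NSYM.{u} := by
  classical
  intro K _ _ O π q E n hG hO hq hn P hP hind m f hf k1
  have hn1 : 1 ≤ n := by omega
  choose kr hkr using fun i => hRINT K O π q E hG (f i) (hf i).1
  refine ⟨max k1 (Finset.univ.sup kr), le_max_left _ _, fun k hk => ?_⟩
  have hkk : ∀ i, kr i ≤ k := fun i =>
    (Finset.le_sup (Finset.mem_univ i)).trans ((le_max_right _ _).trans hk)
  obtain ⟨MP, hMP⟩ := hSMX K O π q E hG hO P.1 P.2.2.ne_zero n P.1.natDegree k hn1
  choose Mf hMf using fun i => hSMX K O π q E hG hO (f i) (hf i).1 n P.1.natDegree k hn1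
  refine ⟨max n (max MP (Finset.univ.sup Mf)), fun M hM g hg hgd u y hu hy => ?_⟩
  have hnM : n ≤ M := (le_max_left _ _).trans hM
  have hMPM : MP ≤ M := (le_max_left _ _).trans ((le_max_right _ _).trans hM)
  have hMfM : ∀ i, Mf i ≤ M := fun i =>
    (Finset.le_sup (Finset.mem_univ i)).trans
      ((le_max_right _ _).trans ((le_max_right _ _).trans hM))
  obtain ⟨Q, hQ⟩ : ∃ Q, Q = QQ π M k g := ⟨_, rfl⟩
  rw [← hQ] at hu
  have hPQ : ¬ P.1 ∣ Q := by
    intro h
    have h1 : AdjoinRoot.mk P.1 Q = 0 := AdjoinRoot.mk_eq_zero.2 h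
    rw [h1] at hu
    exact u.ne_zero hu
  have hQ0 : Q ≠ 0 := by
    rintro h
    exact hPQ (h ▸ dvd_zero _)
  have hQd : Q.natDegree < P.1.natDegree := by
    rw [hQ]
    exact nsym_deg hgd
  have hPf : ∀ i, ¬ P.1 ∣ f i := by
    intro i h
    have := natDegree_le_of_dvd h (hf i).1
    have := (hf i).2
    omega
  have hPX : ¬ P.1 ∣ X := by
    intro h
    have := natDegree_le_of_dvd h X_ne_zero
    rw [natDegree_X] at this
    omega
  -- the symbols
  obtain ⟨Hs, hHs⟩ : ∃ Hs : Fin (m + 1 + 1) → K[X],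
      Hs = Fin.cons P.1 (Fin.cons Q f : Fin (m + 1) → K[X]) := ⟨_, rfl⟩
  obtain ⟨Hl, hHl⟩ : ∃ Hl : Fin (m + 1 + 1) → K[X],
      Hl = Fin.cons (lm P.1) (Fin.cons Q (fun i => lm (f i)) : Fin (m + 1) → K[X]) := ⟨_, rfl⟩
  have s0 : Hs 0 = P.1 := by rw [hHs]; rfl
  have s1 : Hs (Fin.succ 0) = Q := by rw [hHs]; rfl
  have s2 : ∀ i : Fin m, Hs (Fin.succ (Fin.succ i)) = f i := fun i => by rw [hHs]; rfl
  have l0 : Hl 0 = lm P.1 := by rw [hHl]; rfl
  have l1 : Hl (Fin.succ 0) = Q := by rw [hHl]; rfl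
  have l2 : ∀ i : Fin m, Hl (Fin.succ (Fin.succ i)) = lm (f i) := fun i => by rw [hHl]; rfl
  have hHs0 : ∀ j, Hs j ≠ 0 := by
    intro j
    refine Fin.cases ?_ (fun j => Fin.cases ?_ (fun j => ?_) j) j
    · rw [s0]
      exact P.2.2.ne_zero
    · rw [s1]
      exact hQ0
    · rw [s2]
      exact (hf j).1
  have hHl0 : ∀ j, Hl j ≠ 0 := by
    intro j
    refine Fin.cases ?_ (fun j => Fin.cases ?_ (fun j => ?_) j) j
    · rw [l0]
      exact nsym_lm_ne P.2.2.ne_zero
    · rw [l1]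
      exact hQ0
    · rw [l2]
      exact nsym_lm_ne (hf j).1
  obtain ⟨a, ha⟩ : ∃ a : Fin (m + 1 + 1) → (RatFunc K)ˣ, ∀ j, a j = pu (Hs j) :=
    ⟨fun j => pu (Hs j), fun _ => rfl⟩
  obtain ⟨b, hb⟩ : ∃ b : Fin (m + 1 + 1) → (RatFunc K)ˣ, ∀ j, b j = pu (Hl j) :=
    ⟨fun j => pu (Hl j), fun _ => rfl⟩
  -- places where nothing happens
  have hC : ∀ v : MI K, v ≠ P → ¬ v.1 ∣ X → (∀ i, ¬ v.1 ∣ f i) → ¬ v.1 ∣ Q →
      ∀ j, ¬ v.1 ∣ Hs j ∧ ¬ v.1 ∣ Hl j := by
    intro v hvP hvX hvf hvQ j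
    refine Fin.cases ?_ (fun j => Fin.cases ?_ (fun j => ?_) j) j
    · rw [s0, l0]
      exact ⟨fun h => hvP (nsym_eq_of_dvd v P h), fun h => hvX (nsym_dvd_lm v P.2.2.ne_zero h)⟩
    · rw [s1, l1]
      exact ⟨hvQ, hvQ⟩
    · rw [s2, l2]
      exact ⟨hvf j, fun h => hvX (nsym_dvd_lm v (hf j).1 h)⟩
  -- the slots different from the slot of `Q`
  have hslot : ∀ i0 : Fin (m + 1 + 1), i0 ≠ Fin.succ 0 → Hl i0 = lm (Hs i0) ∧
      ∀ v : MI K, v.1 ∣ Q → ¬ v.1 ∣ X ∧
        ∃ w ∈ Small (algebraMap K (AdjoinRoot v.1) π) n (icl O (AdjoinRoot v.1)),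
          (w : AdjoinRoot v.1) * AdjoinRoot.mk v.1 (lm (Hs i0)) = AdjoinRoot.mk v.1 (Hs i0) := by
    intro i0
    refine Fin.cases ?_ (fun j => Fin.cases ?_ (fun j => ?_) j) i0
    · intro _
      rw [s0, l0]
      refine ⟨rfl, fun v hv => ?_⟩
      rw [hQ] at hv
      exact hMP M hMPM g hg hgd v hv
    · intro h
      exact absurd rfl h
    · intro _
      rw [s2, l2]
      refine ⟨rfl, fun v hv => ?_⟩
      rw [hQ] at hv
      exact hMf j M (hMfM j) g hg hgd v hv
  -- the generators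
  have hgen : ∀ (c : Fin (m + 1 + 1) → (RatFunc K)ˣ) (i0 : Fin (m + 1 + 1)),
      c i0 = a i0 / b i0 → (∀ j, j ≠ i0 → c j = a j ∨ c j = b j) →
      (∀ v : MI K, v ≠ P → tame (finPlace v.1) (m + 1) (sym c) ∈
          USub q (algebraMap K (AdjoinRoot v.1) π) n (icl O (AdjoinRoot v.1)) (m + 1) ∧
        (P.1.natDegree ≤ v.1.natDegree → tame (finPlace v.1) (m + 1) (sym c) = 0)) ∧
      tameInf K (m + 1) (sym c) = 0 := by
    intro c i0 hc hcj
    by_cases hi : i0 = Fin.succ 0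
    · have h1 : c i0 = 1 := by
        rw [hc, ha, hb, hi, s1, l1, div_self']
      rw [nsym_one c i0 h1]
      simp only [map_zero]
      exact ⟨fun v _ => ⟨AddSubgroup.zero_mem _, fun _ => trivial⟩, trivial⟩
    · obtain ⟨hl, hsm⟩ := hslot i0 hi
      have hcQ : c (Fin.succ 0) = pu Q := by
        rcases hcj (Fin.succ 0) (Ne.symm hi) with h | h
        · rw [h, ha, s1]
        · rw [h, hb, l1]
      have hci : c i0 = pu (Hs i0) / pu (lm (Hs i0)) := by
        rw [hc, ha, hb, hl]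
      refine ⟨fun v hv => ?_, hINF K (m + 1) c i0 (Hs i0) (hHs0 i0) hci⟩
      -- case A
      have caseA : algebraMap K (AdjoinRoot v.1) π ^ k * AdjoinRoot.root v.1 ∈
          icl O (AdjoinRoot v.1) → v.1.natDegree < P.1.natDegree →
          tame (finPlace v.1) (m + 1) (sym c) ∈
            USub q (algebraMap K (AdjoinRoot v.1) π) n (icl O (AdjoinRoot v.1)) (m + 1) ∧
          (P.1.natDegree ≤ v.1.natDegree → tame (finPlace v.1) (m + 1) (sym c) = 0) := by
        intro hint hdeg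
        refine ⟨?_, fun h => absurd h (by omega)⟩
        obtain ⟨w, hw, hwQ⟩ := hSMQ K O π q E hG k v hint n M hn1 hnM g hg
        rw [← hQ] at hwQ
        have hvQ : ¬ v.1 ∣ Q := by
          intro h
          rw [AdjoinRoot.mk_eq_zero.2 h] at hwQ
          exact w.ne_zero hwQ
        obtain ⟨-, e1, -⟩ := hFPO K v Q hQ0
        obtain ⟨o1, r1⟩ := e1 hvQ
        have h1 : (finPlace v.1).ures (pu Q) = w := by
          apply Units.ext
          rw [r1, hwQ]
        apply (hTSL (RatFunc K) (AdjoinRoot v.1) (finPlace v.1) (m + 1) c (Fin.succ 0) (by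
          rw [hcQ]
          exact o1)).2
        rw [hcQ, h1]
        exact hw
      by_cases hX : v.1 ∣ X
      · apply caseA
        · have : AdjoinRoot.root v.1 = 0 := by
            rw [← AdjoinRoot.mk_X]
            exact AdjoinRoot.mk_eq_zero.2 hX
          rw [this, mul_zero]
          exact (icl O (AdjoinRoot v.1)).zero_mem
        · have := natDegree_le_of_dvd hX X_ne_zero
          rw [natDegree_X] at this
          omega
      by_cases hfi : ∃ i, v.1 ∣ f i
      · obtain ⟨i, hi'⟩ := hfi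
        apply caseA
        · exact hkr i k (hkk i) v hi'
        · exact lt_of_le_of_lt (natDegree_le_of_dvd hi' (hf i).1) (hf i).2
      push Not at hfi
      by_cases hvQ : v.1 ∣ Q
      · -- case B
        refine ⟨?_, fun h => absurd h (by
          have := natDegree_le_of_dvd hvQ hQ0
          omega)⟩
        obtain ⟨-, w, hw, hwe⟩ := hsm v hvQ
        have hvl : ¬ v.1 ∣ lm (Hs i0) := fun h => hX (nsym_dvd_lm v (hHs0 i0) h)
        have hvh : ¬ v.1 ∣ Hs i0 := by
          intro h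
          rw [AdjoinRoot.mk_eq_zero.2 h] at hwe
          have h2 : AdjoinRoot.mk v.1 (lm (Hs i0)) ≠ 0 := fun h' =>
            hvl (AdjoinRoot.mk_eq_zero.1 h')
          exact (mul_ne_zero w.ne_zero h2) hwe
        obtain ⟨o1, r1⟩ := nsym_ratio hFPO v (hHs0 i0) (nsym_lm_ne (hHs0 i0)) hvh hvl
        apply (hTSL (RatFunc K) (AdjoinRoot v.1) (finPlace v.1) (m + 1) c i0 (by
          rw [hci]
          exact o1)).2
        rw [hci, r1 w hwe]
        exact hw
      · -- case C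
        have hall := hC v hv hX hfi hvQ
        have hord : ∀ j, (finPlace v.1).ord (c j) = 0 := by
          intro j
          by_cases hj : j = i0
          · rw [hj, hc, ha, hb]
            exact (nsym_ratio hFPO v (hHs0 i0) (hHl0 i0) (hall i0).1 (hall i0).2).1
          · rcases hcj j hj with h | h
            · rw [h, ha]
              exact ((hFPO K v (Hs j) (hHs0 j)).2.1 (hall j).1).1
            · rw [h, hb]
              exact ((hFPO K v (Hl j) (hHl0 j)).2.1 (hall j).2).1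
        have h0 := (hTZP (RatFunc K) (AdjoinRoot v.1) (finPlace v.1) (m + 1)).1 c hord
        rw [h0]
        exact ⟨AddSubgroup.zero_mem _, fun _ => rfl⟩
  -- the difference
  have hη : (∀ v : MI K, v ≠ P → tame (finPlace v.1) (m + 1) (sym a - sym b) ∈
          USub q (algebraMap K (AdjoinRoot v.1) π) n (icl O (AdjoinRoot v.1)) (m + 1) ∧
        (P.1.natDegree ≤ v.1.natDegree →
          tame (finPlace v.1) (m + 1) (sym a - sym b) = 0)) ∧
      tameInf K (m + 1) (sym a - sym b) = 0 := by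
    have h1 := hTELE (RatFunc K) (m + 1 + 1) a b
    refine AddSubgroup.closure_induction (p := fun z _ => (∀ v : MI K, v ≠ P →
        tame (finPlace v.1) (m + 1) z ∈
          USub q (algebraMap K (AdjoinRoot v.1) π) n (icl O (AdjoinRoot v.1)) (m + 1) ∧
        (P.1.natDegree ≤ v.1.natDegree → tame (finPlace v.1) (m + 1) z = 0)) ∧
      tameInf K (m + 1) z = 0) ?_ ?_ ?_ ?_ h1
    · rintro z ⟨c, i0, rfl, h2, h3⟩
      exact hgen c i0 h2 h3
    · simp only [map_zero]
      exact ⟨fun v _ => ⟨AddSubgroup.zero_mem _, fun _ => trivial⟩, trivial⟩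
    · rintro z z' _ _ ⟨h2, h3⟩ ⟨h4, h5⟩
      simp only [map_add]
      refine ⟨fun v hv => ⟨AddSubgroup.add_mem _ (h2 v hv).1 (h4 v hv).1, fun hd => ?_⟩, ?_⟩
      · rw [(h2 v hv).2 hd, (h4 v hv).2 hd, add_zero]
      · rw [h3, h5, add_zero]
    · rintro z _ ⟨h2, h3⟩
      simp only [map_neg]
      refine ⟨fun v hv => ⟨AddSubgroup.neg_mem _ (h2 v hv).1, fun hd => ?_⟩, ?_⟩
      · rw [(h2 v hv).2 hd, neg_zero]
      · rw [h3, neg_zero]
  -- the tame symbol at `P`
  have hPa : tame (finPlace P.1) (m + 1) (sym a) = cup u (sym y) := by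
    have h1 : a = Fin.cons (pu P.1) (Fin.cons (pu Q) (fun i => pu (f i)) :
        Fin (m + 1) → (RatFunc K)ˣ) := by
      funext j
      refine Fin.cases ?_ (fun j => Fin.cases ?_ (fun j => ?_) j) j
      · rw [ha, s0]
        rfl
      · rw [ha, s1]
        rfl
      · rw [ha, s2]
        rfl
    rw [h1, ← cup_sym]
    have hQo := (hFPO K P Q hQ0).2.1 hPQ
    have hfo := fun i => (hFPO K P (f i) (hf i).1).2.1 (hPf i)
    have h2 := (hTZP (RatFunc K) (AdjoinRoot P.1) (finPlace P.1) (m + 1)).2 (pu P.1)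
      (Fin.cons (pu Q) (fun i => pu (f i)) : Fin (m + 1) → (RatFunc K)ˣ)
      ((hFPO K P Q hQ0).2.2) (by
        intro j
        refine Fin.cases ?_ (fun j => ?_) j
        · exact hQo.1
        · exact (hfo j).1)
    rw [h2, cup_sym]
    congr 1
    funext j
    refine Fin.cases ?_ (fun j => ?_) j
    · apply Units.ext
      change ((finPlace P.1).ures (pu Q) : AdjoinRoot P.1) = u
      rw [hQo.2, hu]
    · apply Units.ext
      change ((finPlace P.1).ures (pu (f j)) : AdjoinRoot P.1) = y j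
      rw [(hfo j).2, hy]
  have hPb : tame (finPlace P.1) (m + 1) (sym b) = 0 := by
    apply (hTZP (RatFunc K) (AdjoinRoot P.1) (finPlace P.1) (m + 1)).1
    intro j
    rw [hb]
    apply ((hFPO K P (Hl j) (hHl0 j)).2.1 _).1
    refine Fin.cases ?_ (fun j => Fin.cases ?_ (fun j => ?_) j) j
    · rw [l0]
      exact fun h => hPX (nsym_dvd_lm P P.2.2.ne_zero h)
    · rw [l1]
      exact hPQ
    · rw [l2]
      exact fun h => hPX (nsym_dvd_lm P (hf j).1 h)
  have hPη : tame (finPlace P.1) (m + 1) (sym a - sym b) = cup u (sym y) := by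
    rw [map_sub, hPa, hPb, sub_zero]
  -- reciprocity
  obtain ⟨S, hS0, hS⟩ := hREC K (m + 1) (sym a - sym b)
  rw [hη.2, neg_zero] at hS
  have hterm : ∀ v : MI K, v ≠ P →
      polyNorm v.1 (m + 1) (tame (finPlace v.1) (m + 1) (sym a - sym b)) ∈
        USub q π n O (m + 1) := by
    intro v hv
    by_cases hd : v.1.natDegree < P.1.natDegree
    · exact hind v hd (m + 1) _ (hη.1 v hv).1
    · rw [(hη.1 v hv).2 (by omega), map_zero]
      exact AddSubgroup.zero_mem _
  rw [← hPη]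
  by_cases hPS : P ∈ S
  · rw [← Finset.add_sum_erase S _ hPS] at hS
    rw [eq_neg_of_add_eq_zero_left hS]
    apply AddSubgroup.neg_mem
    apply AddSubgroup.sum_mem
    intro v hv
    exact hterm v (Finset.ne_of_mem_erase hv)
  · rw [hS0 P hPS, map_zero]
    exact AddSubgroup.zero_mem _

end Pool.Agent.H64.KN
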