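import Pool.Agent.H19.KN.Targets

set_option autoImplicit false

/-!
# KEW, board kna_modules: weak approximation (row APX)
-/

namespace Pool.Agent.H64.KN

open Pool.Agent.H62.MK Pool.Agent.H19.KN Polynomial Function

universe u

theorem pf_APX : T_APX.{u} := by
  classical
  intro F _ R π ι _ Q S hQ hinc hloc hfrac hπ hpow f N
  -- prime avoidance
  have ht : ∀ i, ∃ t : R, t ∈ Q i ∧ ∀ j, j ≠ i → t ∉ Q j := by
    intro i
    by_contra hcon
    push Not at hcon
    have h1 : (Q i : Set R) ⊆ ⋃ j ∈ ((Finset.univ.erase i : Finset ι) : Set ι), (Q j : Set R) := by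
      intro x hx
      obtain ⟨j, hj, hxj⟩ := hcon x hx
      rw [Set.mem_iUnion₂]
      exact ⟨j, by simpa using hj, hxj⟩
    obtain ⟨j, hj, hle⟩ := (Ideal.subset_union_prime i i (fun j _ _ _ => hQ j)).1 h1
    exact hinc i j (Finset.ne_of_mem_erase hj).symm hle
  choose t htm htn using ht
  obtain ⟨u, hu⟩ : ∃ u : ι → R, ∀ i, u i = ∏ j ∈ Finset.univ.erase i, t j := ⟨_, fun _ => rfl⟩
  have hum : ∀ i j, j ≠ i → u i ∈ Q j := by
    intro i j hj
    rw [hu]
    have := hQ j
    exact Ideal.IsPrime.prod_mem_iff.2 ⟨j, Finset.mem_erase.2 ⟨hj, Finset.mem_univ _⟩, htm j⟩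
  have hun : ∀ i, u i ∉ Q i := by
    intro i hi
    rw [hu] at hi
    have := hQ i
    obtain ⟨j, hj, hj'⟩ := Ideal.IsPrime.prod_mem_iff.1 hi
    exact htn j i (Finset.ne_of_mem_erase hj).symm hj'
  choose k hk using fun i j => hfrac j (f i)
  choose Mf hMf using fun i j => hpow j (N + k i j)
  obtain ⟨M, hM⟩ : ∃ M : ℕ, M = 1 + ∑ p : ι × ι, Mf p.1 p.2 := ⟨_, rfl⟩
  have hM1 : M ≠ 0 := by omega
  have hMle : ∀ i j, Mf i j ≤ M := by
    intro i j
    have := Finset.single_le_sum (f := fun p : ι × ι => Mf p.1 p.2) (fun _ _ => Nat.zero_le _)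
      (Finset.mem_univ (i, j))
    simp only [] at this
    omega
  obtain ⟨s, hs⟩ : ∃ s : ι → R, ∀ i, s i = u i ^ M + t i ^ M := ⟨_, fun _ => rfl⟩
  have hsn : ∀ i j, s i ∉ Q j := by
    intro i j hij
    rw [hs] at hij
    by_cases h : j = i
    · subst h
      have h1 : t j ^ M ∈ Q j := (Q j).pow_mem_of_mem (htm j) M (Nat.pos_of_ne_zero hM1)
      have h2 : u j ^ M ∈ Q j := by
        have := (Q j).sub_mem hij h1
        rwa [add_sub_cancel_right] at this
      exact hun j ((hQ j).mem_of_pow_mem M h2)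
    · have h1 : u i ^ M ∈ Q j := (Q j).pow_mem_of_mem (hum i j h) M (Nat.pos_of_ne_zero hM1)
      have h2 : t i ^ M ∈ Q j := by
        have := (Q j).sub_mem hij h1
        rwa [add_sub_cancel_left] at this
      exact htn i j h ((hQ j).mem_of_pow_mem M h2)
  have hs0 : ∀ i, (s i : F) ≠ 0 := by
    intro i h
    apply hsn i i
    have : s i = 0 := Subtype.ext h
    rw [this]
    exact (Q i).zero_mem
  have hinv : ∀ i j, (s i : F)⁻¹ ∈ S j := by
    intro i j
    rw [hloc]
    refine ⟨s i, hsn i j, ?_⟩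
    rw [mul_inv_cancel₀ (hs0 i)]
    exact R.one_mem
  refine ⟨∑ i, (u i : F) ^ M * (s i : F)⁻¹ * f i, fun j => ?_⟩
  have hterm : ∀ i, ∃ c ∈ S j, (u i : F) ^ M * (s i : F)⁻¹ * f i - (if i = j then f j else 0) =
      π ^ N * c := by
    intro i
    by_cases h : i = j
    · subst h
      rw [if_pos rfl]
      have h1 : t i ^ M ∈ Q i ^ Mf i i :=
        Ideal.pow_le_pow_right (hMle i i) (Ideal.pow_mem_pow (htm i) M)
      obtain ⟨c, hc, hct⟩ := hMf i i _ h1
      have hct' : (t i : F) ^ M = π ^ (N + k i i) * c := hct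
      refine ⟨-(c * (s i : F)⁻¹ * (π ^ k i i * f i)), ?_, ?_⟩
      · exact (S i).neg_mem ((S i).mul_mem ((S i).mul_mem hc (hinv i i)) (hk i i))
      · have h2 : (s i : F) = (u i : F) ^ M + (t i : F) ^ M := by
          rw [hs]
          rfl
        have h3 : (u i : F) ^ M * (s i : F)⁻¹ * f i - f i =
            -((t i : F) ^ M * (s i : F)⁻¹ * f i) := by
          have h4 : (u i : F) ^ M = (s i : F) - (t i : F) ^ M := by
            rw [h2]
            ring
          rw [h4, sub_mul, mul_inv_cancel₀ (hs0 i)]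
          ring
        rw [h3, hct', pow_add]
        ring
    · rw [if_neg h, sub_zero]
      have h1 : u i ^ M ∈ Q j ^ Mf i j :=
        Ideal.pow_le_pow_right (hMle i j) (Ideal.pow_mem_pow (hum i j (Ne.symm h)) M)
      obtain ⟨c, hc, hcu⟩ := hMf i j _ h1
      have hcu' : (u i : F) ^ M = π ^ (N + k i j) * c := hcu
      refine ⟨c * (s i : F)⁻¹ * (π ^ k i j * f i), ?_, ?_⟩
      · exact (S j).mul_mem ((S j).mul_mem hc (hinv i j)) (hk i j)
      · rw [hcu', pow_add]
        ring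
  choose c hc hce using hterm
  refine ⟨∑ i, c i, (S j).sum_mem fun i _ => hc i, ?_⟩
  have h1 := Finset.sum_congr rfl (fun i (_ : i ∈ Finset.univ) => hce i)
  rw [Finset.sum_sub_distrib, Finset.sum_ite_eq' Finset.univ j, if_pos (Finset.mem_univ _),
    ← Finset.mul_sum] at h1
  rw [← h1]
  ring

end Pool.Agent.H64.KN
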