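import Pool.Agent.H19.KN.Targets

set_option autoImplicit false

/-!
# KEW, board kna_modules: the hypotheses pass to the integral closure (row GOODE)
-/

namespace Pool.Agent.H64.KN

open Pool.Agent.H62.MK Pool.Agent.H19.KN Polynomial Function

universe u

/-- integral elements and polynomials with coefficients in the subring -/
theorem int_of_coef {K : Type u} [Field K] {O : Subring K} {L : Type u} [Field L] [Algebra K L]
    {p : K[X]} (hm : p.Monic) (hc : CoefIn O p) {x : L} (hx : aeval x p = 0) :
    IsIntegral O x := by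
  have hc' : (↑p.coeffs : Set K) ⊆ O := by
    intro c h
    obtain ⟨i, -, hi⟩ := Polynomial.mem_coeffs_iff.1 h
    rw [hi]
    exact hc i
  refine ⟨p.toSubring O hc', (Polynomial.monic_toSubring p O hc').2 hm, ?_⟩
  have h1 : (p.toSubring O hc').map O.subtype = p := Polynomial.map_toSubring p O hc'
  have h2 : eval₂ (algebraMap K L) x ((p.toSubring O hc').map O.subtype) = 0 := by
    rw [h1]
    exact hx
  rw [eval₂_map] at h2
  exact h2

theorem coef_of_int {K : Type u} [Field K] {O : Subring K} {L : Type u} [Field L] [Algebra K L]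
    {x : L} (hx : IsIntegral O x) : ∃ p : K[X], p.Monic ∧ CoefIn O p ∧ aeval x p = 0 := by
  obtain ⟨p, hp, h⟩ := hx
  refine ⟨p.map O.subtype, hp.map _, fun i => ?_, ?_⟩
  · rw [coeff_map]
    exact (p.coeff i).2
  · change eval₂ (algebraMap K L) x (p.map O.subtype) = 0
    rw [eval₂_map]
    exact h

theorem mem_icl {K : Type u} [Field K] {O : Subring K} {L : Type u} [Field L] [Algebra K L]
    {x : L} : x ∈ icl O L ↔ IsIntegral O x := Iff.rfl

theorem int_scaled {K : Type u} [Field K] {O : Subring K} {L : Type u} [Field L] [Algebra K L]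
    {p : K[X]} (hm : p.Monic) {s : K} (hs : s ∈ O) (hc : ∀ i, s * p.coeff i ∈ O) {x : L}
    (hx : aeval x p = 0) : IsIntegral O (algebraMap K L s * x) := by
  have h1 : aeval (algebraMap K L s * x) (scaleRoots p s) = 0 := scaleRoots_aeval_eq_zero hx
  refine int_of_coef ((monic_scaleRoots_iff s).2 hm) (fun i => ?_) h1
  rw [coeff_scaleRoots]
  rcases lt_trichotomy i p.natDegree with h | h | h
  · obtain ⟨d, hd⟩ : ∃ d, p.natDegree - i = d + 1 := ⟨p.natDegree - i - 1, by omega⟩
    rw [hd, pow_succ]
    have : p.coeff i * (s ^ d * s) = s ^ d * (s * p.coeff i) := by ring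
    rw [this]
    exact O.mul_mem (O.pow_mem hs d) (hc i)
  · rw [h, Nat.sub_self, pow_zero, mul_one]
    have : p.coeff p.natDegree = 1 := hm
    rw [this]
    exact O.one_mem
  · rw [coeff_eq_zero_of_natDegree_lt h, zero_mul]
    exact O.zero_mem

/-- a common denominator of finitely many elements -/
theorem common {K : Type u} [Field K] {O : Subring K} {π : K} {q E : ℕ} (h : Good O π q E)
    (p : K[X]) : ∃ k : ℕ, ∀ k', k ≤ k' → ∀ i, π ^ k' * p.coeff i ∈ O := by
  choose e he using fun i => h.frac (p.coeff i)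
  refine ⟨(Finset.range (p.natDegree + 1)).sup e, fun k' hk' i => ?_⟩
  by_cases hi : i ∈ Finset.range (p.natDegree + 1)
  · have h1 : e i ≤ k' := (Finset.le_sup hi).trans hk'
    obtain ⟨d, hd⟩ := Nat.exists_eq_add_of_le h1
    rw [hd, pow_add]
    have : π ^ e i * π ^ d * p.coeff i = π ^ d * (π ^ e i * p.coeff i) := by ring
    rw [this]
    exact O.mul_mem (O.pow_mem h.pi_mem d) (he i)
  · rw [Finset.mem_range, not_lt] at hi
    rw [coeff_eq_zero_of_natDegree_lt (by omega), mul_zero]
    exact O.zero_mem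

theorem int_trans {K : Type u} [Field K] {O : Subring K} {L : Type u} [Field L] [Algebra K L]
    {M : Type u} [Field M] [Algebra K M] [Algebra L M] [IsScalarTower K L M] {x : M}
    (hx : IsIntegral (icl O L) x) : IsIntegral O x := by
  have h1 : IsIntegral (integralClosure O L) x := hx
  have : IsScalarTower O (integralClosure O L) M := by
    refine IsScalarTower.of_algebraMap_eq fun a => ?_
    change algebraMap K M (a : K) = algebraMap L M (algebraMap K L (a : K))
    exact IsScalarTower.algebraMap_apply K L M _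
  exact isIntegral_trans x h1

theorem pf_GOODE : T_GOODE.{u} := by
  intro K _ O π q E h L _ _ hL
  have h3 : ∀ a ∈ O, algebraMap K L a ∈ icl O L := by
    intro a ha
    exact isIntegral_algebraMap (R := O) (A := L) (x := ⟨a, ha⟩)
  have h5 : ∀ (M : Type u) [Field M] [Algebra K M] [Algebra L M] [IsScalarTower K L M],
      icl (icl O L) M = icl O M := by
    intro M _ _ _ _
    ext x
    rw [mem_icl, mem_icl]
    constructor
    · exact int_trans
    · intro hx
      obtain ⟨p, hp, hc, hxp⟩ := coef_of_int hx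
      refine int_of_coef (p := p.map (algebraMap K L)) (hp.map _) (fun i => ?_) ?_
      · rw [coeff_map]
        exact h3 _ (hc i)
      · rw [aeval_map_algebraMap]
        exact hxp
  refine ⟨⟨⟨h3 π h.pi_mem, ?_, ?_, ?_⟩, ?_⟩, ?_, h3, ?_, h5⟩
  · exact (map_ne_zero (algebraMap K L)).2 h.pi_ne
  · intro a ha
    obtain ⟨f, hf, hfa⟩ := (mem_icl.1 ha)
    obtain ⟨p', hp'⟩ : ∃ p' : O, p' = ⟨π, h.pi_mem⟩ := ⟨_, rfl⟩
    obtain ⟨S, hS⟩ : ∃ S : O[X], S = scaleRoots f p' := ⟨_, rfl⟩
    have hS1 : aeval (algebraMap O L p' * a) S = 0 := by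
      rw [hS]
      exact scaleRoots_aeval_eq_zero hfa
    have hπ' : algebraMap O L p' = algebraMap K L π := by
      rw [hp']
      rfl
    rw [hπ'] at hS1
    obtain ⟨t, ht⟩ : ∃ t : L, t = 1 + algebraMap K L π * a := ⟨_, rfl⟩
    rw [← ht]
    obtain ⟨G, hG⟩ : ∃ G : O[X], G = S.comp (X - 1) := ⟨_, rfl⟩
    have hG1 : aeval t G = 0 := by
      rw [hG, aeval_comp]
      have : aeval t (X - 1 : O[X]) = algebraMap K L π * a := by
        rw [map_sub, aeval_X, map_one, ht]
        ring
      rw [this]
      exact hS1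
    have hG0 : ∃ b : O, G.coeff 0 * b = 1 := by
      have e1 : G.coeff 0 = eval (-1) S := by
        rw [coeff_zero_eq_eval_zero, hG, eval_comp]
        simp
      have e2 : ∃ c : O, eval (-1) S = (-1) ^ f.natDegree + p' * c := by
        rw [eval_eq_sum_range, hS, natDegree_scaleRoots, Finset.sum_range_succ]
        have e3 : p' ∣ ∑ x ∈ Finset.range f.natDegree, (scaleRoots f p').coeff x * (-1) ^ x := by
          apply Finset.dvd_sum
          intro i hi
          rw [Finset.mem_range] at hi
          rw [coeff_scaleRoots]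
          obtain ⟨d, hd⟩ : ∃ d, f.natDegree - i = d + 1 := ⟨f.natDegree - i - 1, by omega⟩
          rw [hd, pow_succ]
          exact ⟨f.coeff i * p' ^ d * (-1) ^ i, by ring⟩
        obtain ⟨c, hc⟩ := e3
        refine ⟨c, ?_⟩
        rw [hc, coeff_scaleRoots, Nat.sub_self, pow_zero, mul_one]
        have : f.coeff f.natDegree = 1 := hf
        rw [this, one_mul, add_comm]
      obtain ⟨c, hc⟩ := e2
      obtain ⟨b, hb, hb1⟩ := h.jac (((-1) ^ f.natDegree * c : O) : K) (Subtype.property _)
      refine ⟨(-1) ^ f.natDegree * ⟨b, hb⟩, ?_⟩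
      have e4 : (1 + p' * ((-1) ^ f.natDegree * c)) * (⟨b, hb⟩ : O) = 1 := by
        apply Subtype.ext
        rw [hp']
        exact hb1
      have e5 : ((-1 : O) ^ f.natDegree) * (-1) ^ f.natDegree = 1 := by
        rw [← mul_pow]
        simp
      rw [e1, hc]
      calc ((-1) ^ f.natDegree + p' * c) * ((-1) ^ f.natDegree * (⟨b, hb⟩ : O))
          = ((-1) ^ f.natDegree * (-1) ^ f.natDegree + p' * ((-1) ^ f.natDegree * c)) *
              (⟨b, hb⟩ : O) := by ring
        _ = 1 := by rw [e5, e4]
    obtain ⟨b, hb⟩ := hG0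
    have htint : t ∈ icl O L := by
      rw [ht]
      exact (icl O L).add_mem (icl O L).one_mem ((icl O L).mul_mem (h3 π h.pi_mem) ha)
    have hHint : aeval t (divX G) ∈ icl O L := by
      rw [aeval_eq_sum_range]
      apply (icl O L).sum_mem
      intro i _
      rw [Algebra.smul_def]
      exact (icl O L).mul_mem (h3 _ (Subtype.property _)) ((icl O L).pow_mem htint i)
    refine ⟨-(aeval t (divX G) * algebraMap O L b), ?_, ?_⟩
    · exact (icl O L).neg_mem ((icl O L).mul_mem hHint (h3 _ (Subtype.property _)))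
    · have e1 : aeval t (divX G) * t + algebraMap O L (G.coeff 0) = 0 := by
        have e2 := congrArg (aeval t) (divX_mul_X_add G)
        rw [map_add, map_mul, aeval_X, aeval_C, hG1] at e2
        exact e2
      have e3 : algebraMap O L (G.coeff 0) * algebraMap O L b = 1 := by
        rw [← map_mul, hb, map_one]
      linear_combination (-algebraMap O L b) * e1 + e3
  · obtain ⟨ε, hε, ε', hε', h1, h2⟩ := h.qeq
    refine ⟨algebraMap K L ε, h3 _ hε, algebraMap K L ε', h3 _ hε', ?_, ?_⟩
    · rw [← map_mul, h1, map_one]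
    · rw [← map_pow, ← map_mul, ← h2, map_natCast]
  · intro x
    have hx : IsIntegral K x := (hL.isAlgebraic x).isIntegral
    obtain ⟨k, hk⟩ := common h (minpoly K x)
    refine ⟨k, ?_⟩
    have h1 := int_scaled (O := O) (minpoly.monic hx) (O.pow_mem h.pi_mem k) (hk k le_rfl)
      (minpoly.aeval K x)
    rw [map_pow] at h1
    exact h1
  · intro x hx
    have h1 : x ∈ icl (icl O L) L := hx
    rw [h5 L] at h1
    exact h1
  · intro hO a ha
    apply hO
    have h1 : IsIntegral O (algebraMap K L a) := ha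
    exact (isIntegral_algebraMap_iff (algebraMap K L).injective).1 h1

end Pool.Agent.H64.KN
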