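import Pool.Agent.H64.KN.GOODE

set_option autoImplicit false

/-!
# KEW, board kna_modules: roots of a fixed polynomial (row RINT)
-/

namespace Pool.Agent.H64.KN

open Pool.Agent.H62.MK Pool.Agent.H19.KN Polynomial Function

universe u

theorem pf_RINT (_h : T_GOODE.{u}) : T_RINT.{u} := by
  intro K _ O π q E h f hf
  obtain ⟨k1, hk1⟩ := common h (C f.leadingCoeff⁻¹ * f)
  refine ⟨k1, fun k hk v hv => ?_⟩
  have hlc : f.leadingCoeff ≠ 0 := leadingCoeff_ne_zero.2 hf
  have hm : (C f.leadingCoeff⁻¹ * f).Monic := monic_C_mul_of_mul_leadingCoeff_eq_one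
    (inv_mul_cancel₀ hlc)
  have hroot : aeval (AdjoinRoot.root v.1) (C f.leadingCoeff⁻¹ * f) = 0 := by
    obtain ⟨g, hg⟩ := hv
    rw [hg, map_mul, map_mul]
    have : aeval (AdjoinRoot.root v.1) v.1 = 0 := by
      rw [AdjoinRoot.aeval_eq, AdjoinRoot.mk_self]
    rw [this, zero_mul, mul_zero]
  have h1 := int_scaled (O := O) hm (O.pow_mem h.pi_mem k) (hk1 k hk) hroot
  rw [map_pow] at h1
  exact h1

end Pool.Agent.H64.KN
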